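import Mathlib
import Pool.Agent.Helper75_rk.Final
import Pool.Agent.Helper75_rk.MainB

/-!
# Short combinations in a projectively abelian normal subgroup have large rank

`ρ : G → GL(V)` is an irreducible representation of a finite group over a field `F`, and `E` is a
normal subgroup of `G` whose image in `PGL(V)` is abelian (every commutator of elements of `E` acts
as a scalar; for instance `E` is abelian, or extraspecial). Let `h 0, …, h (q-1)` be in one coset of
`E`, let every `(h i)⁻¹ * h j` have an order dividing `e` in the representation, and let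
`f = ∑ α l • ρ (h l)` be nonzero.

* If `e = p ^ m` is a prime power then
  `dim V ≤ 2 ^ q * (log₂ |G| + 1) ^ (p ^ (m * (q + 1))) * rank f`, for every field `F`.
* If `F` has characteristic zero and `e = p` is a prime, then
  `dim V ≤ 2 ^ q * (log₂ |G| + 1) ^ (q! ^ (q + 1)) * rank f`, uniformly in `p`.

Hence Q1 holds for these combinations, with a threshold depending on `ε, q, p, m` only in the first
case, and on `ε, q` only in the second case.
-/

namespace Pool.Agent.Results.MP_11a08a_al.ProjectivelyAbelian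

open Module

universe u v w

section Defs
variable {F : Type u} [Field F] {V : Type v} [AddCommGroup V] [Module F V] {G : Type w} [Group G]

/-- The image of `E` in `PGL(V)` is abelian, the `h i` are in one coset of `E`, and the quotients
`(h i)⁻¹ * h j` have an order dividing `e` in the representation. -/
def Admissible (ρ : Representation F G V) (E : Subgroup G) {q : ℕ} (h : Fin q → G) (e : ℕ) :
    Prop :=
  (∀ x ∈ E, ∀ y ∈ E, ∃ c : F, ρ (x * y) = c • ρ (y * x)) ∧ (∀ i j, (h i)⁻¹ * h j ∈ E) ∧
    ∀ i j, ρ (((h i)⁻¹ * h j) ^ e) = 1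

/-- The combination `∑ α l • ρ (h l)`. -/
noncomputable def comb (ρ : Representation F G V) {q : ℕ} (h : Fin q → G) (α : Fin q → F) :
    V →ₗ[F] V :=
  ∑ l, α l • ρ (h l)

end Defs

/-- The rank bound over the field `F`: a nonzero combination `f` of `q` elements satisfies
`dim V ≤ 2 ^ q * (log₂ |G| + 1) ^ d * rank f`. -/
def Bound (F : Type u) [Field F] (q e d : ℕ) : Prop :=
  ∀ (V : Type v) [AddCommGroup V] [Module F V] [FiniteDimensional F V] (G : Type w) [Group G]
    [Finite G] (ρ : Representation F G V) [ρ.IsIrreducible] (E : Subgroup G) [E.Normal]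
    (h : Fin q → G) (α : Fin q → F), Admissible ρ E h e → comb ρ h α ≠ 0 →
    finrank F V ≤ 2 ^ q * (Nat.log 2 (Nat.card G) + 1) ^ d *
      finrank F (LinearMap.range (comb ρ h α))

/-- The assertion of Q1 over the field `F`, with the exponent `ε` and the threshold `N`. -/
def Q1 (F : Type u) [Field F] (q e : ℕ) (ε : ℝ) (N : ℕ) : Prop :=
  ∀ (V : Type v) [AddCommGroup V] [Module F V] [FiniteDimensional F V] (G : Type w) [Group G]
    [Finite G] (ρ : Representation F G V) [ρ.IsIrreducible] (E : Subgroup G) [E.Normal]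
    (h : Fin q → G) (α : Fin q → F), Admissible ρ E h e → comb ρ h α ≠ 0 →
    N < finrank F V → (Nat.card G : ℝ) ^ ε ≤ (finrank F V : ℝ) →
    (finrank F V : ℝ) ^ (1 - ε) ≤ (finrank F (LinearMap.range (comb ρ h α)) : ℝ)

lemma bound_primePow (F : Type u) [Field F] (q p m : ℕ) (hp : p.Prime) :
    Bound.{u, v, w} F q (p ^ m) (p ^ (m * (q + 1))) := by
  intro V _ _ _ G _ _ ρ _ E _ h α ⟨hE, hh, hexp⟩ hf
  have : Fact p.Prime := ⟨hp⟩
  have h1 := Helper75rk.rank_bound_sep p m q ρ (Helper75rk.irr_of_isIrreducible ρ) E hE h hh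
    hexp α hf
  have h2 : Helper75rk.bd (Nat.card G) (p ^ m) q =
      (Nat.log 2 (Nat.card G) + 1) ^ (p ^ (m * (q + 1))) := by
    unfold Helper75rk.bd
    congr 1
    rw [← pow_succ, ← pow_mul]
  rw [h2] at h1
  exact h1

lemma bound_charZero (F : Type u) [Field F] [CharZero F] (q p : ℕ) (hp : p.Prime) :
    Bound.{u, v, w} F q p (q.factorial ^ (q + 1)) := by
  intro V _ _ _ G _ _ ρ _ E _ h α ⟨hE, hh, hexp⟩ hf
  have hq : 1 ≤ q := by
    by_contra hq
    have : q = 0 := by omega
    subst this
    exact hf (by simp [comb])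
  have hB : Monotone fun c : ℕ => (Nat.log 2 c + 1) ^ (q.factorial ^ (q + 1)) :=
    fun c c' hc => Nat.pow_le_pow_left (Nat.succ_le_succ (Nat.log_mono_right hc)) _
  exact Helper75rk.rank_bound_sepB p q _ hB (Helper75rk.core0_all p hp q hq F) ρ
    (Helper75rk.irr_of_isIrreducible ρ) E hE h hh hexp α hf

/-- **Theorem.** The rank bounds, and Q1, for combinations of elements of one coset of a normal
subgroup with abelian image in `PGL(V)`. -/
theorem result :
    (∀ (F : Type u) [Field F] (q p m : ℕ), p.Prime →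
      Bound.{u, v, w} F q (p ^ m) (p ^ (m * (q + 1)))) ∧
    (∀ (F : Type u) [Field F] [CharZero F] (q p : ℕ), p.Prime →
      Bound.{u, v, w} F q p (q.factorial ^ (q + 1))) ∧
    (∀ (ε : ℝ), 0 < ε → ∀ q p m : ℕ, p.Prime → ∃ N : ℕ, ∀ (F : Type u) [Field F],
      Q1.{u, v, w} F q (p ^ m) ε N) ∧
    (∀ (ε : ℝ), 0 < ε → ∀ q : ℕ, ∃ N : ℕ, ∀ (F : Type u) [Field F] [CharZero F] (p : ℕ),
      p.Prime → Q1.{u, v, w} F q p ε N) := by
  refine ⟨bound_primePow, bound_charZero, ?_, ?_⟩
  · intro ε hε q p m hp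
    obtain ⟨N, hN⟩ := Helper75rk.asymptotic ε hε (2 ^ q) (p ^ (m * (q + 1)))
    refine ⟨N, ?_⟩
    intro F _ V _ _ _ G _ _ ρ _ E _ h α hA hf hn hG
    exact hN _ (Nat.card G) _ hn Nat.card_pos hG (bound_primePow F q p m hp V G ρ E h α hA hf)
  · intro ε hε q
    obtain ⟨N, hN⟩ := Helper75rk.asymptotic ε hε (2 ^ q) (q.factorial ^ (q + 1))
    refine ⟨N, ?_⟩
    intro F _ _ p hp V _ _ _ G _ _ ρ _ E _ h α hA hf hn hG
    exact hN _ (Nat.card G) _ hn Nat.card_pos hG (bound_charZero F q p hp V G ρ E h α hA hf)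

end Pool.Agent.Results.MP_11a08a_al.ProjectivelyAbelian
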