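import Mathlib
import Pool.Agent.Helper75_rk.Tensor
import Pool.Agent.Helper75_rk.TensorPerm

/-!
# Short combinations which preserve a tensor decomposition have large rank

Let `V ≅ ⨂ W i` with `dim W i ≤ d`, let `ρ : G → GL(V)` be a representation of a group over a
field, let `h 0, …, h (q-1)` be elements of `G` such that every `(h i)⁻¹ * h j` acts as a tensor
product of operators of the factors `W i`, and let `f = ∑ α l • ρ (h l)` be nonzero. Then
`dim V ≤ d ^ (q-1) * rank f`. In particular `rank f ≥ (dim V) ^ (1-ε)` as soon as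
`d ^ (q-1) ≤ (dim V) ^ ε`.

If `V ≅ W ⊗ … ⊗ W` with `dim W ≤ d` and every `(h i)⁻¹ * h j` preserves this decomposition up to a
permutation of the factors (for instance if `ρ` is tensor induced), then
`dim V ≤ d ^ (2 * (q-1)) * rank f`.
-/

namespace Pool.Agent.Results.MP_11a08a_al.TensorProducts

open Module Helper75rk
open scoped TensorProduct

universe u v w x y

section Defs
variable {F : Type u} [Field F] {V : Type v} [AddCommGroup V] [Module F V] {G : Type w} [Group G]
  {I : Type x} {W : I → Type y} [∀ i, AddCommGroup (W i)] [∀ i, Module F (W i)]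

/-- The combination `∑ α l • ρ (h l)`. -/
noncomputable def comb (ρ : Representation F G V) {q : ℕ} (h : Fin q → G) (α : Fin q → F) :
    V →ₗ[F] V :=
  ∑ l, α l • ρ (h l)

/-- The operator `g` preserves the decomposition `e : V ≃ ⨂ W i`: it is a tensor product of
invertible operators of the factors. -/
def Pure (e : V ≃ₗ[F] ⨂[F] i, W i) (g : V →ₗ[F] V) : Prop :=
  ∃ A : ∀ i, W i ≃ₗ[F] W i, ∀ v, e (g v) = PiTensorProduct.map (fun i => (A i).toLinearMap) (e v)

/-- The operator `g` preserves the decomposition `e : V ≃ W ⊗ … ⊗ W` up to a permutation of the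
factors: it is a permutation of the factors followed by a tensor product of invertible operators. -/
def PurePerm {U : Type y} [AddCommGroup U] [Module F U] (e : V ≃ₗ[F] PiTensorProduct F fun _ : I => U)
    (g : V →ₗ[F] V) : Prop :=
  ∃ (σ : Equiv.Perm I) (A : I → U ≃ₗ[F] U), ∀ v,
    e (g v) = PiTensorProduct.map (fun i => (A i).toLinearMap)
      (PiTensorProduct.reindex F (fun _ : I => U) σ (e v))

/-- The tensor product of representations of `G`. -/
noncomputable def tensor (σ : ∀ i, Representation F G (W i)) :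
    Representation F G (⨂[F] i, W i) where
  toFun g := PiTensorProduct.map fun i => σ i g
  map_one' := by
    simp only [map_one]
    exact PiTensorProduct.map_one
  map_mul' g g' := by
    simp only [map_mul]
    exact PiTensorProduct.map_mul _ _

end Defs

/-- The bound, and the assertion of Q1 for every `ε` with `d ^ (q - 1) ≤ n ^ ε`, for an operator
`f` of an `n`-dimensional space. -/
def LargeRank {F : Type u} [Field F] {V : Type v} [AddCommGroup V] [Module F V] (d q : ℕ)
    (f : V →ₗ[F] V) : Prop :=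
  finrank F V ≤ d ^ (q - 1) * finrank F (LinearMap.range f) ∧
    ∀ ε : ℝ, (d : ℝ) ^ (q - 1) ≤ (finrank F V : ℝ) ^ ε →
      (finrank F V : ℝ) ^ (1 - ε) ≤ (finrank F (LinearMap.range f) : ℝ)

section Proof
variable {F : Type u} [Field F] {V : Type v} [AddCommGroup V] [Module F V] {G : Type w} [Group G]
  {I : Type x} [Finite I] {W : I → Type y} [∀ i, AddCommGroup (W i)] [∀ i, Module F (W i)]
  [∀ i, FiniteDimensional F (W i)]

lemma largeRank_of_bound {d q : ℕ} (f : V →ₗ[F] V) (hf : f ≠ 0) [FiniteDimensional F V]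
    (h : finrank F V ≤ d ^ (q - 1) * finrank F (LinearMap.range f)) :
    LargeRank d q f := by
  refine ⟨h, ?_⟩
  intro ε hε
  have hn : 0 < finrank F V := by
    have : Nontrivial V := by
      by_contra hV
      rw [not_nontrivial_iff_subsingleton] at hV
      exact hf (LinearMap.ext fun v => Subsingleton.elim _ _)
    exact finrank_pos
  have hn' : (0 : ℝ) < (finrank F V : ℝ) := by exact_mod_cast hn
  have h1 : (finrank F V : ℝ) ≤ (d : ℝ) ^ (q - 1) * (finrank F (LinearMap.range f) : ℝ) := by
    exact_mod_cast h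
  have h2 : (finrank F V : ℝ) ≤ (finrank F V : ℝ) ^ ε * (finrank F (LinearMap.range f) : ℝ) :=
    h1.trans (mul_le_mul_of_nonneg_right hε (Nat.cast_nonneg _))
  rw [Real.rpow_sub hn', Real.rpow_one, div_le_iff₀ (Real.rpow_pos_of_pos hn' _)]
  rw [mul_comm]
  exact h2

lemma bound (ρ : Representation F G V) (e : V ≃ₗ[F] ⨂[F] i, W i) (d q : ℕ) (hd1 : 1 ≤ d)
    (hd : ∀ i, finrank F (W i) ≤ d) (h : Fin q → G) (α : Fin q → F)
    (hP : ∀ i j, Pure e (ρ ((h i)⁻¹ * h j))) (hf : comb ρ h α ≠ 0) :
    LargeRank d q (comb ρ h α) := by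
  classical
  have := Fintype.ofFinite I
  have hq : 0 < q := by
    by_contra hq
    have : q = 0 := by omega
    subst this
    exact hf (by simp [comb])
  set h₀ : G := h ⟨0, hq⟩ with hh₀
  choose A hA using fun l : Fin q => hP ⟨0, hq⟩ l
  set b : ∀ i, Basis (Fin (finrank F (W i))) F (W i) := fun i => finBasis F (W i) with hb
  set B := Basis.piTensorProduct b with hB
  set B' := B.map e.symm with hB'
  have hfin : FiniteDimensional F V := B'.finiteDimensional_of_finite
  apply largeRank_of_bound _ hf
  set g : V →ₗ[F] V := ∑ l, α l • ρ (h₀⁻¹ * h l) with hg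
  have hg1 : g = ρ h₀⁻¹ ∘ₗ comb ρ h α := by
    ext v
    rw [LinearMap.comp_apply, hg, comb, LinearMap.sum_apply, LinearMap.sum_apply, map_sum]
    apply Finset.sum_congr rfl
    intro l _
    rw [LinearMap.smul_apply, LinearMap.smul_apply, map_smul, map_mul]
    rfl
  have hg2 : g ≠ 0 := by
    intro h0
    apply hf
    have : ρ h₀ ∘ₗ g = comb ρ h α := by
      rw [hg1, ← LinearMap.comp_assoc]
      have : ρ h₀ ∘ₗ ρ h₀⁻¹ = LinearMap.id := by
        have := map_mul ρ h₀ h₀⁻¹
        rw [mul_inv_cancel, map_one] at this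
        exact this.symm
      rw [this, LinearMap.id_comp]
    rw [← this, h0, LinearMap.comp_zero]
  have hrk : finrank F (LinearMap.range g) ≤ finrank F (LinearMap.range (comb ρ h α)) := by
    rw [hg1, LinearMap.range_comp]
    exact Submodule.finrank_map_le _ _
  -- matrices
  have hmat : ∀ l, LinearMap.toMatrix B' B' (ρ (h₀⁻¹ * h l)) =
      kr (fun i => LinearMap.toMatrix (b i) (b i) (A l i).toLinearMap) := by
    intro l
    ext x y
    rw [LinearMap.toMatrix_apply, hB', Basis.map_repr, LinearEquiv.trans_apply,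
      LinearEquiv.symm_symm, Basis.map_apply, hA l, LinearEquiv.apply_symm_apply, hB,
      Basis.piTensorProduct_apply, PiTensorProduct.map_tprod,
      Basis.piTensorProduct_repr_tprod_apply, kr_apply]
    apply Finset.prod_congr rfl
    intro i _
    rw [LinearMap.toMatrix_apply]
  have hcb : LinearMap.toMatrix B' B' g = cb Finset.univ α
      (fun l i => LinearMap.toMatrix (b i) (b i) (A l i).toLinearMap) := by
    rw [hg, map_sum, cb]
    apply Finset.sum_congr rfl
    intro l _
    rw [map_smul, hmat l]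
  have hunit : ∀ l ∈ (Finset.univ : Finset (Fin q)), ∀ i,
      IsUnit (LinearMap.toMatrix (b i) (b i) (A l i).toLinearMap) := by
    intro l _ i
    refine ⟨⟨_, LinearMap.toMatrix (b i) (b i) (A l i).symm.toLinearMap, ?_, ?_⟩, rfl⟩
    · rw [← LinearMap.toMatrix_comp]
      simp
    · rw [← LinearMap.toMatrix_comp]
      simp
  have hmain := card_le_rank d hd1 (fun i => by rw [Fintype.card_fin]; exact hd i) q
    (Finset.univ : Finset (Fin q)) α _ (by simp) hunit (by
      rw [← hcb]
      intro h0
      exact hg2 ((LinearMap.toMatrix B' B').map_eq_zero_iff.1 h0))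
  rw [← hcb, Matrix.rank_eq_finrank_range_toLin _ B' B', Matrix.toLin_toMatrix,
    ← Module.finrank_eq_card_basis B'] at hmain
  exact hmain.trans (Nat.mul_le_mul_left _ hrk)

lemma bound_perm {U : Type y} [AddCommGroup U] [Module F U] [FiniteDimensional F U]
    (ρ : Representation F G V) (e : V ≃ₗ[F] PiTensorProduct F fun _ : I => U) (d q : ℕ)
    (hd1 : 1 ≤ d) (hd : finrank F U ≤ d) (h : Fin q → G) (α : Fin q → F)
    (hP : ∀ i j, PurePerm e (ρ ((h i)⁻¹ * h j))) (hf : comb ρ h α ≠ 0) :
    LargeRank (d ^ 2) q (comb ρ h α) := by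
  classical
  have := Fintype.ofFinite I
  have hq : 0 < q := by
    by_contra hq
    have : q = 0 := by omega
    subst this
    exact hf (by simp [comb])
  set h₀ : G := h ⟨0, hq⟩ with hh₀
  choose σ A hA using fun l : Fin q => hP ⟨0, hq⟩ l
  set b : Basis (Fin (finrank F U)) F U := finBasis F U with hb
  set B : Basis (I → Fin (finrank F U)) F (PiTensorProduct F fun _ : I => U) :=
    Basis.piTensorProduct (fun _ : I => b) with hB
  set B' := B.map e.symm with hB'
  have hfin : FiniteDimensional F V := B'.finiteDimensional_of_finite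
  apply largeRank_of_bound _ hf
  set g : V →ₗ[F] V := ∑ l, α l • ρ (h₀⁻¹ * h l) with hg
  have hg1 : g = ρ h₀⁻¹ ∘ₗ comb ρ h α := by
    ext v
    rw [LinearMap.comp_apply, hg, comb, LinearMap.sum_apply, LinearMap.sum_apply, map_sum]
    apply Finset.sum_congr rfl
    intro l _
    rw [LinearMap.smul_apply, LinearMap.smul_apply, map_smul, map_mul]
    rfl
  have hg2 : g ≠ 0 := by
    intro h0
    apply hf
    have : ρ h₀ ∘ₗ g = comb ρ h α := by
      rw [hg1, ← LinearMap.comp_assoc]
      have : ρ h₀ ∘ₗ ρ h₀⁻¹ = LinearMap.id := by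
        have := map_mul ρ h₀ h₀⁻¹
        rw [mul_inv_cancel, map_one] at this
        exact this.symm
      rw [this, LinearMap.id_comp]
    rw [← this, h0, LinearMap.comp_zero]
  have hrk : finrank F (LinearMap.range g) ≤ finrank F (LinearMap.range (comb ρ h α)) := by
    rw [hg1, LinearMap.range_comp]
    exact Submodule.finrank_map_le _ _
  -- matrices
  have hmat : ∀ l, LinearMap.toMatrix B' B' (ρ (h₀⁻¹ * h l)) =
      gp (fun i => LinearMap.toMatrix b b (A l i).toLinearMap) (σ l).symm := by
    intro l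
    ext x y
    rw [LinearMap.toMatrix_apply, hB', Basis.map_repr, LinearEquiv.trans_apply,
      LinearEquiv.symm_symm, Basis.map_apply, hA l, LinearEquiv.apply_symm_apply, hB,
      Basis.piTensorProduct_apply]
    have h1 : PiTensorProduct.reindex F (fun _ : I => U) (σ l)
        (PiTensorProduct.tprod F fun i => b (y i)) =
        PiTensorProduct.tprod F fun i => b (y ((σ l).symm i)) :=
      PiTensorProduct.reindex_tprod (σ l) _
    rw [h1, PiTensorProduct.map_tprod, Basis.piTensorProduct_repr_tprod_apply, gp_apply]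
    apply Finset.prod_congr rfl
    intro i _
    rw [LinearMap.toMatrix_apply]
  have hcb : LinearMap.toMatrix B' B' g = cg Finset.univ α
      (fun l i => LinearMap.toMatrix b b (A l i).toLinearMap) (fun l => (σ l).symm) := by
    rw [hg, map_sum, cg]
    apply Finset.sum_congr rfl
    intro l _
    rw [map_smul, hmat l]
  have hunit : ∀ l ∈ (Finset.univ : Finset (Fin q)), ∃ D : Finset I, D.card ≤ 0 ∧
      ∀ i ∉ D, IsUnit (LinearMap.toMatrix b b (A l i).toLinearMap) := by
    intro l _
    refine ⟨∅, by simp, ?_⟩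
    intro i _
    refine ⟨⟨_, LinearMap.toMatrix b b (A l i).symm.toLinearMap, ?_, ?_⟩, rfl⟩
    · rw [← LinearMap.toMatrix_comp]
      simp
    · rw [← LinearMap.toMatrix_comp]
      simp
  have hmain := card_le_rank_perm d hd1 (by rw [Fintype.card_fin]; exact hd) q
    (Finset.univ : Finset (Fin q)) α _ _ 0 (by simp) hunit (by
      rw [← hcb]
      intro h0
      exact hg2 ((LinearMap.toMatrix B' B').map_eq_zero_iff.1 h0))
  rw [← hcb, Matrix.rank_eq_finrank_range_toLin _ B' B', Matrix.toLin_toMatrix,
    ← Module.finrank_eq_card_basis B', zero_add, pow_mul] at hmain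
  exact hmain.trans (Nat.mul_le_mul_left _ hrk)

end Proof

/-- **Theorem.** The rank bound for combinations which preserve a tensor decomposition into spaces
of dimension at most `d`, and for tensor products of representations of degree at most `d`. -/
theorem result :
    (∀ (F : Type u) [Field F] (V : Type v) [AddCommGroup V] [Module F V] (G : Type w) [Group G]
      (ρ : Representation F G V) (I : Type x) [Finite I] (W : I → Type y)
      [∀ i, AddCommGroup (W i)] [∀ i, Module F (W i)] [∀ i, FiniteDimensional F (W i)]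
      (e : V ≃ₗ[F] ⨂[F] i, W i) (d q : ℕ) (h : Fin q → G) (α : Fin q → F),
      1 ≤ d → (∀ i, finrank F (W i) ≤ d) → (∀ i j, Pure e (ρ ((h i)⁻¹ * h j))) →
      comb ρ h α ≠ 0 → LargeRank d q (comb ρ h α)) ∧
    (∀ (F : Type u) [Field F] (G : Type w) [Group G] (I : Type x) [Finite I] (W : I → Type y)
      [∀ i, AddCommGroup (W i)] [∀ i, Module F (W i)] [∀ i, FiniteDimensional F (W i)]
      (σ : ∀ i, Representation F G (W i)) (d q : ℕ) (h : Fin q → G) (α : Fin q → F),
      1 ≤ d → (∀ i, finrank F (W i) ≤ d) →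
      comb (tensor σ) h α ≠ 0 → LargeRank d q (comb (tensor σ) h α)) ∧
    (∀ (F : Type u) [Field F] (V : Type v) [AddCommGroup V] [Module F V] (G : Type w) [Group G]
      (ρ : Representation F G V) (I : Type x) [Finite I] (U : Type y)
      [AddCommGroup U] [Module F U] [FiniteDimensional F U]
      (e : V ≃ₗ[F] PiTensorProduct F fun _ : I => U) (d q : ℕ) (h : Fin q → G) (α : Fin q → F),
      1 ≤ d → finrank F U ≤ d → (∀ i j, PurePerm e (ρ ((h i)⁻¹ * h j))) →
      comb ρ h α ≠ 0 → LargeRank (d ^ 2) q (comb ρ h α)) := by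
  refine ⟨?_, ?_, ?_⟩
  · intro F _ V _ _ G _ ρ I _ W _ _ _ e d q h α hd1 hd hP hf
    exact bound ρ e d q hd1 hd h α hP hf
  · intro F _ G _ I _ W _ _ _ σ d q h α hd1 hd hf
    refine bound (tensor σ) (LinearEquiv.refl F _) d q hd1 hd h α ?_ hf
    intro i j
    refine ⟨fun k => LinearEquiv.ofLinearMap (σ k ((h i)⁻¹ * h j)) (σ k ((h i)⁻¹ * h j)⁻¹) ?_ ?_, ?_⟩
    · have := map_mul (σ k) ((h i)⁻¹ * h j) ((h i)⁻¹ * h j)⁻¹
      rw [mul_inv_cancel, map_one] at this
      exact this.symm
    · have := map_mul (σ k) ((h i)⁻¹ * h j)⁻¹ ((h i)⁻¹ * h j)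
      rw [inv_mul_cancel, map_one] at this
      exact this.symm
    · intro v
      rfl
  · intro F _ V _ _ G _ ρ I _ U _ _ _ e d q h α hd1 hd hP hf
    exact bound_perm ρ e d q hd1 hd h α hP hf

end Pool.Agent.Results.MP_11a08a_al.TensorProducts
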